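import Pool.Agent.W510.CG.Stm

/-!
Arithmetic of the chain and the convex subgroups defined by an additive predicate.
-/

set_option autoImplicit false

namespace Pool.Agent.W154.CG

open Pool.Agent.W510.CG

theorem lt_iff' {x y : L0} : x < y ↔
    ∃ i : ℕ, (∀ j, i < j → (ofColex x) j = (ofColex y) j) ∧ (ofColex x) i < (ofColex y) i :=
  Finsupp.Colex.lt_iff

theorem pos_iff {x : L0} : 0 < x ↔
    ∃ i : ℕ, (∀ j, i < j → (ofColex x) j = 0) ∧ 0 < (ofColex x) i := by
  rw [lt_iff']
  constructor
  · rintro ⟨i, h1, h2⟩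
    exact ⟨i, fun j hj => (h1 j hj).symm, h2⟩
  · rintro ⟨i, h1, h2⟩
    exact ⟨i, fun j hj => (h1 j hj).symm, h2⟩

theorem e_self (n : ℕ) : (ofColex (e n)) n = 1 := by
  simp [e]

theorem e_ne {n i : ℕ} (h : n ≠ i) : (ofColex (e n)) i = 0 := by
  simp [e, Finsupp.single_eq_of_ne h.symm]

theorem main1 : S_ARI := by
  intro n
  refine ⟨?_, ?_, ?_, ?_, ?_, ?_⟩
  · rw [pos_iff]
    exact ⟨n, fun j hj => e_ne hj.ne, by rw [e_self]; norm_num⟩
  · intro h
    have := h n le_rfl
    rw [e_self] at this
    norm_num at this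
  · intro i hi
    exact e_ne (by omega)
  · intro s t hs hst ht i hi
    rcases hs.eq_or_lt with h | h
    · rw [← h]
      rfl
    · obtain ⟨m, h1, h2⟩ := pos_iff.1 h
      by_cases hm : m < i
      · exact h1 i hm
      · exfalso
        have : t < s := by
          rw [lt_iff']
          refine ⟨m, fun j hj => ?_, ?_⟩
          · rw [h1 j hj, ht j (by omega)]
          · rw [ht m (by omega)]
            exact h2
        exact absurd hst (not_le.2 this)
  · intro s hs hs1 hs2
    obtain ⟨m, h1, h2⟩ := pos_iff.1 hs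
    have hm : ¬ n + 1 ≤ m := by
      intro h
      rw [hs1 m h] at h2
      exact lt_irrefl _ h2
    have hm2 : ¬ m < n := by
      intro h
      apply hs2
      intro i hi
      exact h1 i (by omega)
    have hmn : m = n := by omega
    subst hmn
    exact h2
  · intro s hs hs1
    obtain ⟨m, h1, h2⟩ := pos_iff.1 hs
    have hm : ¬ m < n + 1 := by
      intro h
      apply hs1
      intro i hi
      exact h1 i (by omega)
    have key : ∀ j, n < j → (ofColex (s - e n)) j = (ofColex s) j := by
      intro j hj
      have : (ofColex (s - e n)) j = (ofColex s) j - (ofColex (e n)) j := rfl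
      rw [this, e_ne hj.ne, sub_zero]
    refine ⟨?_, ?_⟩
    · rw [pos_iff]
      refine ⟨m, fun j hj => ?_, ?_⟩
      · rw [key j (by omega)]
        exact h1 j hj
      · rw [key m (by omega)]
        exact h2
    · intro h
      have := h m (by omega)
      rw [key m (by omega)] at this
      rw [this] at h2
      exact lt_irrefl _ h2

theorem main (_h : S_ARI) : S_CONV := by
  intro P hP ⟨l0, hl0, hnl0⟩
  -- domination
  have dom : ∀ l x : L0, 0 < l → l < x → P x → P l := by
    intro l x hl hlx hx
    have h1 : 0 < x - l := sub_pos.2 hlx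
    have h2 := (hP l (x - l) hl h1).1 (by rwa [add_sub_cancel])
    exact h2.1
  have epos : ∀ n, 0 < e n := fun n => (_h n).1
  -- multiples
  have mul : ∀ (k N : ℕ), P (e k) → P ((N + 1) • e k) := by
    intro k N hk
    induction N with
    | zero => simpa using hk
    | succ N ih =>
      rw [succ_nsmul]
      exact (hP _ _ (nsmul_pos (epos k) (by omega)) (epos k)).2 ⟨ih, hk⟩
  have smul_apply : ∀ (N k j : ℕ), (ofColex (N • e k)) j = N * (ofColex (e k)) j := by
    intro N k j
    have : (ofColex (N • e k)) j = N • (ofColex (e k)) j := rfl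
    rw [this]
    simp
  have hex : ∃ n, ¬ P (e n) := by
    obtain ⟨m, h1, h2⟩ := pos_iff.1 hl0
    refine ⟨m + 1, fun h => hnl0 (dom l0 _ hl0 ?_ h)⟩
    rw [lt_iff']
    refine ⟨m + 1, fun j hj => ?_, ?_⟩
    · rw [h1 j (by omega), e_ne (by omega)]
    · rw [h1 (m + 1) (by omega), e_self]
      norm_num
  classical
  refine ⟨Nat.find hex, fun l hl => ?_⟩
  have hn := Nat.find_spec hex
  have hlt : ∀ i, i < Nat.find hex → P (e i) := fun i hi => not_not.1 (Nat.find_min hex hi)
  obtain ⟨m, h1, h2⟩ := pos_iff.1 hl
  constructor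
  · intro hPl
    by_contra hg
    have hm : Nat.find hex ≤ m := by
      by_contra hm
      apply hg
      intro i hi
      exact h1 i (by omega)
    apply hn
    have hPll : P (l + l) := (hP l l hl hl).2 ⟨hPl, hPl⟩
    refine dom _ _ (epos _) ?_ hPll
    rw [lt_iff']
    have hadd : ∀ j, (ofColex (l + l)) j = (ofColex l) j + (ofColex l) j := fun j => rfl
    refine ⟨m, fun j hj => ?_, ?_⟩
    · rw [hadd, h1 j hj, e_ne (by omega)]
      rfl
    · rw [hadd]
      rcases hm.eq_or_lt with h | h
      · rw [h, e_self]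
        omega
      · rw [e_ne (by omega)]
        omega
  · intro hg
    have hm : m < Nat.find hex := by
      by_contra hm
      have := hg m (by omega)
      rw [this] at h2
      exact lt_irrefl _ h2
    refine dom _ _ hl ?_ (mul m ((ofColex l) m).toNat (hlt m hm))
    rw [lt_iff']
    refine ⟨m, fun j hj => ?_, ?_⟩
    · rw [h1 j hj, smul_apply, e_ne (by omega), mul_zero]
    · rw [smul_apply, e_self]
      push_cast
      omega

end Pool.Agent.W154.CG
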